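import Pool.Agent.TH199.MY.Sob

set_option autoImplicit false

open MeasureTheory Set
open scoped ContDiff

namespace Pool.Agent.Results.MP_2c73ad_mp.MarchYoungTwo

/-- Three-dimensional space. -/
abbrev E3 := EuclideanSpace ℝ (Fin 3)

/-- The `i`-th partial derivative of a test function. -/
noncomputable def partialDeriv (i : Fin 3) (η : E3 → ℝ) (x : E3) : ℝ :=
  fderiv ℝ η x (EuclideanSpace.single i 1)

/-- `f` is in the Sobolev space `H¹(ℝ³)` and `g` is its weak gradient. -/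
structure IsSobolev (f : E3 → ℂ) (g : Fin 3 → E3 → ℂ) : Prop where
  memLp : MemLp f 2
  memLp_grad : ∀ i, MemLp (g i) 2
  weak : ∀ η : E3 → ℝ, ContDiff ℝ ∞ η → HasCompactSupport η → ∀ i,
    ∫ x, f x * (partialDeriv i η x : ℂ) = -∫ x, g i x * (η x : ℂ)

/-- `φ₁, ..., φ_N` is an admissible family for the density `ρ`, with `q` spin states: the
functions are orthonormal, in `H¹` with weak gradients `g`, and `∑ |φ_n(x; σ)|² = ρ(x)`. -/
structure IsAdmissible (ρ : E3 → ℝ) {N q : ℕ} (φ : Fin N → Fin q → E3 → ℂ)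
    (g : Fin N → Fin q → Fin 3 → E3 → ℂ) : Prop where
  sobolev : ∀ n σ, IsSobolev (φ n σ) (g n σ)
  orthonormal : ∀ n m, ∑ σ, ∫ x, star (φ n σ x) * φ m σ x = if n = m then (1 : ℂ) else 0
  density : ∀ x, ∑ n, ∑ σ, ‖φ n σ x‖ ^ 2 = ρ x

/-- The kinetic energy. -/
noncomputable def kinetic {N q : ℕ} (g : Fin N → Fin q → Fin 3 → E3 → ℂ) : ℝ :=
  ∑ n, ∑ σ, ∑ i, ∫ x, ‖g n σ i x‖ ^ 2

/-- `ρ ≥ 0` is a density with `∫ ρ = N`, and `√ρ` is in `H¹(ℝ³)` with weak gradient `G`. -/
structure IsDensity (ρ : E3 → ℝ) (N : ℕ) (G : Fin 3 → E3 → ℂ) : Prop where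
  nonneg : ∀ x, 0 ≤ ρ x
  integrable : Integrable ρ
  integral : ∫ x, ρ x = N
  sobolev : IsSobolev (fun x => ((Real.sqrt (ρ x) : ℝ) : ℂ)) G

lemma norm_split (G : ℂ) (b s : ℝ) :
    ‖G * (b : ℂ) + (s : ℂ)‖ ^ 2 = ‖G‖ ^ 2 * b ^ 2 + 2 * G.re * (b * s) + s ^ 2 := by
  rw [← Complex.normSq_eq_norm_sq, ← Complex.normSq_eq_norm_sq, Complex.normSq_apply,
    Complex.normSq_apply]
  simp only [Complex.add_re, Complex.mul_re, Complex.ofReal_re, Complex.ofReal_im, mul_zero,
    sub_zero, Complex.add_im, Complex.mul_im, add_zero, zero_add]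
  ring

open TH199.MY in
/-- Families built from functions of one linear functional. -/
lemma family {ρ : E3 → ℝ} {G : Fin 3 → E3 → ℂ} (h0 : ∀ x, 0 ≤ ρ x) (hi : Integrable ρ)
    (hG : IsSobolev (fun x => ((Real.sqrt (ρ x) : ℝ) : ℂ)) G) {N q : ℕ} (c : Fin 3 → ℝ)
    (h h' : Fin N → ℝ → ℝ) (hs : ∀ n, ContDiff ℝ ∞ (h n))
    (hd : ∀ n t, HasDerivAt (h n) (h' n t) t) {K : ℝ} (hb : ∀ n t, |h n t| ≤ K)
    (hb' : ∀ n t, |h' n t| ≤ K) (s1 : ∀ t, ∑ n, h n t ^ 2 = 1)
    (s0 : ∀ t, ∑ n, h n t * h' n t = 0) (sp : Fin N → Fin q)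
    (ho : ∀ n m, sp n = sp m →
      ∫ x, ρ x * (h n (ell c x) * h m (ell c x)) = if n = m then (1 : ℝ) else 0) :
    ∃ (φ : Fin N → Fin q → E3 → ℂ) (g : Fin N → Fin q → Fin 3 → E3 → ℂ), IsAdmissible ρ φ g ∧
      kinetic g = (∑ i, ∫ x, ‖G i x‖ ^ 2) +
        (∑ i, c i ^ 2) * ∫ x, ρ x * ∑ n, h' n (ell c x) ^ 2 := by
  have hpc : ∀ n, Continuous fun x => h n (ell c x) := fun n => (hs n).continuous.comp (ell_cont c)
  have hpd : ∀ n i x, pd i (fun x => h n (ell c x)) x = h' n (ell c x) * c i := fun n i x =>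
    comp_pd (hd n) c i x
  have hpc' : ∀ n i, Continuous fun x => h' n (ell c x) * c i := fun n i => by
    have := pd_cont (comp_contDiff (hs n) c) i
    have e : pd i (fun x => h n (ell c x)) = fun x => h' n (ell c x) * c i := funext fun x => hpd n i x
    rwa [e] at this
  set φ₀ : Fin N → E3 → ℂ := fun n x => ((Real.sqrt (ρ x) : ℝ) : ℂ) * ((h n (ell c x) : ℝ) : ℂ)
    with hφ₀
  set g₀ : Fin N → Fin 3 → E3 → ℂ := fun n i x => G i x * ((h n (ell c x) : ℝ) : ℂ) +
    ((Real.sqrt (ρ x) : ℝ) : ℂ) * ((h' n (ell c x) * c i : ℝ) : ℂ) with hg₀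
  have m1 : ∀ n, MemLp (φ₀ n) 2 := fun n => by
    refine hG.memLp.of_le_mul (c := K) (hG.memLp.1.mul
      (Complex.continuous_ofReal.comp (hpc n)).aestronglyMeasurable)
      (Filter.Eventually.of_forall fun x => ?_)
    rw [norm_mul, mul_comm, Complex.norm_real (h n (ell c x)), Real.norm_eq_abs]
    exact mul_le_mul_of_nonneg_right (hb _ _) (norm_nonneg _)
  have m2 : ∀ n i, MemLp (fun x => G i x * ((h n (ell c x) : ℝ) : ℂ)) 2 := fun n i => by
    refine (hG.memLp_grad i).of_le_mul (c := K) ((hG.memLp_grad i).1.mul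
      (Complex.continuous_ofReal.comp (hpc n)).aestronglyMeasurable)
      (Filter.Eventually.of_forall fun x => ?_)
    rw [norm_mul, mul_comm, Complex.norm_real, Real.norm_eq_abs]
    exact mul_le_mul_of_nonneg_right (hb _ _) (norm_nonneg _)
  have m3 : ∀ n i, MemLp (fun x => ((Real.sqrt (ρ x) : ℝ) : ℂ) *
      ((h' n (ell c x) * c i : ℝ) : ℂ)) 2 := fun n i => by
    refine hG.memLp.of_le_mul (c := K * |c i|) (hG.memLp.1.mul
      (Complex.continuous_ofReal.comp (hpc' n i)).aestronglyMeasurable)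
      (Filter.Eventually.of_forall fun x => ?_)
    rw [norm_mul, mul_comm, Complex.norm_real (h' n (ell c x) * c i), Real.norm_eq_abs, abs_mul]
    exact mul_le_mul_of_nonneg_right (mul_le_mul_of_nonneg_right (hb' _ _) (abs_nonneg _))
      (norm_nonneg _)
  have m4 : ∀ n i, MemLp (g₀ n i) 2 := fun n i => (m2 n i).add (m3 n i)
  have sob : ∀ n, IsSobolev (φ₀ n) (g₀ n) := fun n => by
    refine ⟨m1 n, m4 n, fun η h1 h2 i => ?_⟩
    have := prod_weak hG.memLp hG.memLp_grad (fun η h1 h2 i => hG.weak η h1 h2 i)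
      (comp_contDiff (hs n) c) h1 h2 i
    simp only [hpd] at this
    exact this
  have zer : IsSobolev (fun _ => 0) (fun _ _ => 0) := by
    refine ⟨MemLp.zero', fun _ => MemLp.zero', fun η _ _ i => by simp⟩
  refine ⟨fun n σ => if sp n = σ then φ₀ n else fun _ => 0,
    fun n σ => if sp n = σ then g₀ n else fun _ _ => 0, ⟨?_, ?_, ?_⟩, ?_⟩
  · intro n σ
    by_cases hσ : sp n = σ
    · simp only [hσ, if_true]; exact sob n
    · simp only [hσ, if_false]; exact zer
  · intro n m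
    by_cases hnm : sp n = sp m
    · rw [Finset.sum_eq_single (sp n)]
      · simp only [if_true, hnm]
        have e : ∀ x, star (φ₀ n x) * φ₀ m x =
            ((ρ x * (h n (ell c x) * h m (ell c x)) : ℝ) : ℂ) := by
          intro x
          have hsq : ((Real.sqrt (ρ x) : ℝ) : ℂ) * ((Real.sqrt (ρ x) : ℝ) : ℂ) = ((ρ x : ℝ) : ℂ) := by
            rw [← Complex.ofReal_mul, Real.mul_self_sqrt (h0 x)]
          have hst : ∀ r : ℝ, star (r : ℂ) = r := fun r => Complex.conj_ofReal r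
          simp only [hφ₀]
          rw [star_mul', hst, hst]
          push_cast
          rw [← hsq]
          ring
        simp only [e]
        rw [integral_complex_ofReal, ho n m hnm]
        split_ifs <;> simp
      · intro σ _ hσ
        have h1 : sp n ≠ σ := fun h => hσ h.symm
        simp [h1]
      · intro h; exact absurd (Finset.mem_univ _) h
    · have hne : n ≠ m := fun h => hnm (by rw [h])
      rw [if_neg hne]
      refine Finset.sum_eq_zero fun σ _ => ?_
      by_cases hσ : sp n = σ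
      · have h1 : sp m ≠ σ := fun h => hnm (hσ.trans h.symm)
        simp [h1]
      · simp [hσ]
  · intro x
    have e : ∀ n, ∑ σ, ‖(if sp n = σ then φ₀ n else fun _ => 0) x‖ ^ 2 = ρ x * h n (ell c x) ^ 2 := by
      intro n
      rw [Finset.sum_eq_single (sp n)]
      · simp only [if_true, hφ₀]
        rw [norm_mul, Complex.norm_real, Complex.norm_real, Real.norm_eq_abs, Real.norm_eq_abs,
          mul_pow, sq_abs, sq_abs, Real.sq_sqrt (h0 x)]
      · intro σ _ hσ
        have h1 : sp n ≠ σ := fun h => hσ h.symm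
        simp [h1]
      · intro h; exact absurd (Finset.mem_univ _) h
    rw [Finset.sum_congr rfl fun n _ => e n, ← Finset.mul_sum, s1, mul_one]
  · have e : ∀ n, ∑ σ, ∑ i, ∫ x, ‖(if sp n = σ then g₀ n else fun _ _ => 0) i x‖ ^ 2 =
        ∑ i, ∫ x, ‖g₀ n i x‖ ^ 2 := by
      intro n
      rw [Finset.sum_eq_single (sp n)]
      · simp only [if_true]
      · intro σ _ hσ
        have h1 : sp n ≠ σ := fun h => hσ h.symm
        simp [h1]
      · intro h; exact absurd (Finset.mem_univ _) h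
    rw [kinetic, Finset.sum_congr rfl fun n _ => e n, Finset.sum_comm, Finset.sum_mul,
      ← Finset.sum_add_distrib]
    refine Finset.sum_congr rfl fun i _ => ?_
    have hgi : ∀ n, Integrable (fun x => ‖g₀ n i x‖ ^ 2) := fun n =>
      (m4 n i).integrable_norm_pow (by norm_num)
    have hGi : Integrable (fun x => ‖G i x‖ ^ 2) :=
      (hG.memLp_grad i).integrable_norm_pow (by norm_num)
    have hpc3 : Continuous fun x => ∑ n, (h' n (ell c x) * c i) ^ 2 :=
      continuous_finsetSum _ fun n _ => (hpc' n i).pow 2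
    have hρi : Integrable (fun x => ρ x * ∑ n, (h' n (ell c x) * c i) ^ 2) := by
      refine (hi.mul_const (∑ _n : Fin N, (K * |c i|) ^ 2)).mono'
        (hi.1.mul hpc3.aestronglyMeasurable) (Filter.Eventually.of_forall fun x => ?_)
      have hnn : 0 ≤ ∑ n, (h' n (ell c x) * c i) ^ 2 := Finset.sum_nonneg fun _ _ => sq_nonneg _
      rw [Real.norm_eq_abs, abs_of_nonneg (mul_nonneg (h0 x) hnn)]
      refine mul_le_mul_of_nonneg_left (Finset.sum_le_sum fun n _ => ?_) (h0 x)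
      rw [← sq_abs (h' n (ell c x) * c i), abs_mul]
      exact pow_le_pow_left₀ (by positivity)
        (mul_le_mul_of_nonneg_right (hb' _ _) (abs_nonneg _)) 2
    rw [← integral_finsetSum _ fun n _ => hgi n]
    have e2 : ∀ x, ∑ n, ‖g₀ n i x‖ ^ 2 =
        ‖G i x‖ ^ 2 + ρ x * ∑ n, (h' n (ell c x) * c i) ^ 2 := by
      intro x
      have e3 : ∀ n, ‖g₀ n i x‖ ^ 2 = ‖G i x‖ ^ 2 * h n (ell c x) ^ 2 +
          2 * (G i x).re * Real.sqrt (ρ x) * c i * (h n (ell c x) * h' n (ell c x)) +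
          ρ x * (h' n (ell c x) * c i) ^ 2 := by
        intro n
        have e4 : g₀ n i x = G i x * ((h n (ell c x) : ℝ) : ℂ) +
            ((Real.sqrt (ρ x) * (h' n (ell c x) * c i) : ℝ) : ℂ) := by
          simp only [hg₀]; push_cast; ring
        rw [e4, norm_split, mul_pow (Real.sqrt (ρ x)), Real.sq_sqrt (h0 x)]
        ring
      rw [Finset.sum_congr rfl fun n _ => e3 n, Finset.sum_add_distrib, Finset.sum_add_distrib,
        ← Finset.mul_sum, ← Finset.mul_sum, ← Finset.mul_sum, s1, s0]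
      ring
    simp only [e2]
    rw [integral_add hGi hρi]
    congr 1
    rw [← integral_const_mul]
    refine integral_congr_ae (Filter.Eventually.of_forall fun x => ?_)
    simp only
    rw [Finset.mul_sum, Finset.mul_sum, Finset.mul_sum]
    refine Finset.sum_congr rfl fun n _ => ?_
    ring

lemma sum_split (p s : ℕ) (A B C : ℝ) :
    ∑ n : Fin ((p + s) + p), (if (n : ℕ) < p + s then (if (n : ℕ) < p then A else B) else C) =
      p * A + s * B + p * C := by
  rw [Fin.sum_univ_eq_sum_range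
    (fun n : ℕ => if n < p + s then (if n < p then A else B) else C) ((p + s) + p),
    Finset.sum_range_add, Finset.sum_range_add]
  have e1 : ∑ x ∈ Finset.range p, (if x < p + s then (if x < p then A else B) else C) = p * A := by
    rw [Finset.sum_congr rfl fun x hx => by
      have := Finset.mem_range.1 hx
      rw [if_pos (by omega), if_pos this], Finset.sum_const, Finset.card_range, nsmul_eq_mul]
  have e2 : ∑ x ∈ Finset.range s, (if p + x < p + s then (if p + x < p then A else B) else C) =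
      s * B := by
    rw [Finset.sum_congr rfl fun x hx => by
      have := Finset.mem_range.1 hx
      rw [if_pos (by omega), if_neg (by omega)], Finset.sum_const, Finset.card_range,
      nsmul_eq_mul]
  have e3 : ∑ x ∈ Finset.range p,
      (if p + s + x < p + s then (if p + s + x < p then A else B) else C) = p * C := by
    rw [Finset.sum_congr rfl fun x hx => by
      rw [if_neg (by omega)], Finset.sum_const, Finset.card_range, nsmul_eq_mul]
  rw [e1, e2, e3]

open TH199.MY in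
lemma small {q N : ℕ} (hN : 1 ≤ N) (hNq : N ≤ q) {ρ : E3 → ℝ} {G : Fin 3 → E3 → ℂ}
    (h0 : ∀ x, 0 ≤ ρ x) (hi : Integrable ρ) (hρ : ∫ x, ρ x = N)
    (hG : IsSobolev (fun x => ((Real.sqrt (ρ x) : ℝ) : ℂ)) G) :
    ∃ (φ : Fin N → Fin q → E3 → ℂ) (g : Fin N → Fin q → Fin 3 → E3 → ℂ), IsAdmissible ρ φ g ∧
      kinetic g = ∑ i, ∫ x, ‖G i x‖ ^ 2 := by
  have hN0 : (0:ℝ) < N := by exact_mod_cast hN
  have hsq : Real.sqrt (1 / (N:ℝ)) * Real.sqrt (1 / (N:ℝ)) = 1 / N :=
    Real.mul_self_sqrt (by positivity)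
  obtain ⟨φ, g, h1, h2⟩ := family h0 hi hG (N := N) (q := q) (fun _ => 0)
    (fun _ _ => Real.sqrt (1 / (N:ℝ))) (fun _ _ => 0) (fun _ => contDiff_const)
    (fun _ t => hasDerivAt_const t _) (K := Real.sqrt (1 / (N:ℝ)))
    (fun _ _ => by rw [abs_of_nonneg (Real.sqrt_nonneg _)])
    (fun _ _ => by rw [abs_zero]; exact Real.sqrt_nonneg _)
    (fun _ => by
      rw [Finset.sum_const, Finset.card_univ, Fintype.card_fin, nsmul_eq_mul, pow_two, hsq]
      field_simp)
    (fun _ => by simp) (fun n => Fin.castLE hNq n) (fun n m hnm => by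
      have e : n = m := Fin.castLE_injective hNq hnm
      rw [if_pos e, hsq, integral_mul_const, hρ]
      field_simp)
  refine ⟨φ, g, h1, ?_⟩
  rw [h2]
  simp

open TH199.MY in
lemma large {p s : ℕ} (hp : 1 ≤ p) {ρ : E3 → ℝ} {G : Fin 3 → E3 → ℂ}
    (h0 : ∀ x, 0 ≤ ρ x) (hi : Integrable ρ) (hρ : ∫ x, ρ x = (((p + s) + p : ℕ) : ℝ))
    (hI : Integrable fun x => ρ x ^ (5 / 3 : ℝ))
    (hG : IsSobolev (fun x => ((Real.sqrt (ρ x) : ℝ) : ℂ)) G) :
    ∃ (φ : Fin ((p + s) + p) → Fin (p + s) → E3 → ℂ)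
      (g : Fin ((p + s) + p) → Fin (p + s) → Fin 3 → E3 → ℂ), IsAdmissible ρ φ g ∧
      kinetic g ≤ (∑ i, ∫ x, ‖G i x‖ ^ 2) + 14 * (p * (72000000 *
        ((2 / (((p + s) + p : ℕ) : ℝ)) ^ (5 / 3 : ℝ) * ∫ x, ρ x ^ (5 / 3 : ℝ)))) := by
  set N : ℕ := (p + s) + p with hNd
  have hp0 : (0:ℝ) < p := by exact_mod_cast hp
  have hN0 : (0:ℝ) < N := by
    have : 0 < N := by omega
    exact_mod_cast this
  have hN0' : (N:ℝ) ≠ 0 := hN0.ne'
  have h20 : (0:ℝ) ≤ 2 / N := by positivity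
  -- the normalized density
  obtain ⟨c, a, w, hc, hw, hA, hB, hW⟩ := geo (ρ := fun x => 2 / (N:ℝ) * ρ x)
    (fun x => mul_nonneg h20 (h0 x)) (hi.const_mul _) (by
      rw [integral_const_mul, hρ]; field_simp) (by
      have : ∀ x, (2 / (N:ℝ) * ρ x) ^ (5 / 3 : ℝ) =
          (2 / (N:ℝ)) ^ (5 / 3 : ℝ) * ρ x ^ (5 / 3 : ℝ) := fun x => Real.mul_rpow h20 (h0 x)
      simp only [this]
      exact hI.const_mul _)
  have hI2 : ∫ x, (2 / (N:ℝ) * ρ x) ^ (5 / 3 : ℝ) =
      (2 / (N:ℝ)) ^ (5 / 3 : ℝ) * ∫ x, ρ x ^ (5 / 3 : ℝ) := by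
    rw [← integral_const_mul]
    exact integral_congr_ae (Filter.Eventually.of_forall fun x => Real.mul_rpow h20 (h0 x))
  rw [hI2] at hW
  have hA' : ∫ x, ρ x * fA a w (ell c x) = N / 2 := by
    have e : ∀ x, 2 / (N:ℝ) * ρ x * fA a w (ell c x) = 2 / (N:ℝ) * (ρ x * fA a w (ell c x)) :=
      fun x => by ring
    simp only [e] at hA
    rw [integral_const_mul] at hA
    field_simp at hA ⊢
    linarith
  have hB' : ∫ x, ρ x * fB a w (ell c x) = 0 := by
    have e : ∀ x, 2 / (N:ℝ) * ρ x * fB a w (ell c x) = 2 / (N:ℝ) * (ρ x * fB a w (ell c x)) :=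
      fun x => by ring
    simp only [e] at hB
    rw [integral_const_mul] at hB
    rcases mul_eq_zero.1 hB with h | h
    · exact absurd h (by positivity)
    · exact h
  have hfAc : Continuous fun x : E3 => fA a w (ell c x) := by
    have : ∀ x : E3, fA a w (ell c x) = p2 a w (ell c x) ^ 2 := fun x => (p_sq hw _).2.1.symm
    simp only [this]
    exact ((p2_smooth hw).continuous.comp (ell_cont c)).pow 2
  have hAi : Integrable fun x => ρ x * fA a w (ell c x) := by
    refine hi.mono' (hi.1.mul hfAc.aestronglyMeasurable) (Filter.Eventually.of_forall fun x => ?_)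
    rw [Real.norm_eq_abs, abs_of_nonneg (mul_nonneg (h0 x) (fA_nonneg _ _ _))]
    exact mul_le_of_le_one_right (h0 x) (fA_le _ _ _)
  set α := Real.sqrt (2 / (N:ℝ)) with hα
  have hα2 : α * α = 2 / N := Real.mul_self_sqrt h20
  have hα0 : 0 ≤ α := Real.sqrt_nonneg _
  set β := Real.sqrt (1 / (N:ℝ)) with hβ
  have hβ2 : β * β = 1 / N := Real.mul_self_sqrt (by positivity)
  have hβ0 : 0 ≤ β := Real.sqrt_nonneg _
  have hNps : (N:ℝ) = 2 * p + s := by rw [hNd]; push_cast; ring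
  set h : Fin N → ℝ → ℝ := fun n t =>
    if (n:ℕ) < p + s then (if (n:ℕ) < p then α * p1 a w t else β) else α * p2 a w t with hh
  set h' : Fin N → ℝ → ℝ := fun n t =>
    if (n:ℕ) < p + s then (if (n:ℕ) < p then α * q1 a w t else 0) else α * q2 a w t with hh'
  have hsp : ∀ n : Fin N, (if (n:ℕ) < p + s then (n:ℕ) else (n:ℕ) - (p + s)) < p + s := fun n => by
    have := n.2
    split_ifs <;> omega
  obtain ⟨φ, g, k1, k2⟩ := family h0 hi hG (N := N) (q := p + s) c h h'
    (fun n => by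
      simp only [hh]
      split_ifs
      · exact contDiff_const.mul (p1_smooth hw)
      · exact contDiff_const
      · exact contDiff_const.mul (p2_smooth hw))
    (fun n t => by
      simp only [hh, hh']
      split_ifs
      · exact (p1_deriv hw t).const_mul _
      · exact hasDerivAt_const t _
      · exact (p2_deriv hw t).const_mul _)
    (K := max (max α β) (α * w⁻¹))
    (fun n t => by
      simp only [hh]
      obtain ⟨j1, j2⟩ := p_le hw t (a := a)
      have l1 : α ≤ max (max α β) (α * w⁻¹) := (le_max_left _ _).trans (le_max_left _ _)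
      have l2 : β ≤ max (max α β) (α * w⁻¹) := (le_max_right _ _).trans (le_max_left _ _)
      split_ifs
      · rw [abs_mul, abs_of_nonneg hα0]
        exact (mul_le_of_le_one_right hα0 j1).trans l1
      · rw [abs_of_nonneg hβ0]; exact l2
      · rw [abs_mul, abs_of_nonneg hα0]
        exact (mul_le_of_le_one_right hα0 j2).trans l1)
    (fun n t => by
      simp only [hh']
      obtain ⟨j1, j2⟩ := q_le hw t (a := a)
      have l3 : α * w⁻¹ ≤ max (max α β) (α * w⁻¹) := le_max_right _ _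
      have l4 : 0 ≤ α * w⁻¹ := by positivity
      split_ifs
      · rw [abs_mul, abs_of_nonneg hα0]
        exact (mul_le_mul_of_nonneg_left j1 hα0).trans l3
      · rw [abs_zero]; exact l4.trans l3
      · rw [abs_mul, abs_of_nonneg hα0]
        exact (mul_le_mul_of_nonneg_left j2 hα0).trans l3)
    (fun t => by
      obtain ⟨j1, j2, -⟩ := p_sq hw t (a := a)
      have e : ∀ n : Fin N, h n t ^ 2 = if (n:ℕ) < p + s then
          (if (n:ℕ) < p then 2 / N * (1 - fA a w t) else 1 / N) else 2 / N * fA a w t := by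
        intro n
        simp only [hh]
        split_ifs
        · rw [mul_pow, pow_two α, hα2, j1]
        · rw [pow_two, hβ2]
        · rw [mul_pow, pow_two α, hα2, j2]
      rw [Finset.sum_congr rfl fun n _ => e n, sum_split]
      field_simp
      rw [hNps]
      ring)
    (fun t => by
      have j1 := pq_zero hw t (a := a)
      have e : ∀ n : Fin N, h n t * h' n t = if (n:ℕ) < p + s then
          (if (n:ℕ) < p then 2 / N * (p1 a w t * q1 a w t) else 0) else
            2 / N * (p2 a w t * q2 a w t) := by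
        intro n
        simp only [hh, hh']
        split_ifs
        · rw [← hα2]; ring
        · ring
        · rw [← hα2]; ring
      rw [Finset.sum_congr rfl fun n _ => e n, sum_split]
      linear_combination (p * (2 / (N:ℝ))) * j1)
    (fun n => ⟨_, hsp n⟩)
    (fun n m hnm => by
      rw [Fin.mk.injEq] at hnm
      have hn := n.2
      have hm := m.2
      have v1 : ∫ x, ρ x * (α * p1 a w (ell c x) * (α * p1 a w (ell c x))) = 1 := by
        have e : ∀ x, ρ x * (α * p1 a w (ell c x) * (α * p1 a w (ell c x))) =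
            2 / N * (ρ x - ρ x * fA a w (ell c x)) := by
          intro x
          have j1 := (p_sq hw (ell c x) (a := a)).1
          rw [← hα2]
          linear_combination (ρ x * α * α) * j1
        simp only [e]
        rw [integral_const_mul, integral_sub hi hAi, hρ, hA']
        field_simp
        ring
      have v2 : ∫ x, ρ x * (α * p2 a w (ell c x) * (α * p2 a w (ell c x))) = 1 := by
        have e : ∀ x, ρ x * (α * p2 a w (ell c x) * (α * p2 a w (ell c x))) =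
            2 / N * (ρ x * fA a w (ell c x)) := by
          intro x
          have j1 := (p_sq hw (ell c x) (a := a)).2.1
          rw [← hα2]
          linear_combination (ρ x * α * α) * j1
        simp only [e]
        rw [integral_const_mul, hA']
        field_simp
      have v3 : ∫ x, ρ x * (α * p1 a w (ell c x) * (α * p2 a w (ell c x))) = 0 := by
        have e : ∀ x, ρ x * (α * p1 a w (ell c x) * (α * p2 a w (ell c x))) =
            2 / N * (ρ x * fB a w (ell c x)) := by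
          intro x
          have j1 := (p_sq hw (ell c x) (a := a)).2.2
          rw [← hα2]
          linear_combination (ρ x * α * α) * j1
        simp only [e]
        rw [integral_const_mul, hB', mul_zero]
      have v3' : ∫ x, ρ x * (α * p2 a w (ell c x) * (α * p1 a w (ell c x))) = 0 := by
        rw [← v3]
        exact integral_congr_ae (Filter.Eventually.of_forall fun x => by simp only; ring)
      have v4 : ∫ x, ρ x * (β * β) = 1 := by
        rw [integral_mul_const, hβ2, hρ]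
        field_simp
      simp only [hh]
      by_cases hnm2 : n = m
      · subst hnm2
        rw [if_pos rfl]
        split_ifs
        · exact v1
        · exact v4
        · exact v2
      · have hne : (n:ℕ) ≠ m := fun h => hnm2 (Fin.ext h)
        rw [if_neg hnm2]
        by_cases c1 : (n:ℕ) < p + s
        · by_cases c2 : (m:ℕ) < p + s
          · rw [if_pos c1, if_pos c2] at hnm
            exact absurd hnm hne
          · rw [if_pos c1, if_neg c2] at hnm
            have c3 : (n:ℕ) < p := by omega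
            simp only [c1, c2, c3, if_true, if_false]
            exact v3
        · by_cases c2 : (m:ℕ) < p + s
          · rw [if_neg c1, if_pos c2] at hnm
            have c3 : (m:ℕ) < p := by omega
            simp only [c1, c2, c3, if_true, if_false]
            exact v3'
          · rw [if_neg c1, if_neg c2] at hnm
            omega)
  refine ⟨φ, g, k1, ?_⟩
  rw [k2]
  refine add_le_add_right ?_ _
  -- the energy
  have hq : ∀ x, ρ x * ∑ n, h' n (ell c x) ^ 2 ≤
      p * (2 / N) * (w ^ 2)⁻¹ * (ρ x * fA a w (ell c x)) := by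
    intro x
    have e : ∀ n : Fin N, h' n (ell c x) ^ 2 = if (n:ℕ) < p + s then
        (if (n:ℕ) < p then 2 / N * q1 a w (ell c x) ^ 2 else 0) else
          2 / N * q2 a w (ell c x) ^ 2 := by
      intro n
      simp only [hh']
      split_ifs
      · rw [mul_pow, pow_two α, hα2]
      · ring
      · rw [mul_pow, pow_two α, hα2]
    rw [Finset.sum_congr rfl fun n _ => e n, sum_split]
    have j1 := q_sq hw (ell c x) (a := a)
    have j2 : p * (2 / (N:ℝ)) * (q1 a w (ell c x) ^ 2 + q2 a w (ell c x) ^ 2) ≤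
        p * (2 / (N:ℝ)) * ((w ^ 2)⁻¹ * fA a w (ell c x)) :=
      mul_le_mul_of_nonneg_left j1 (by positivity)
    have j3 := mul_le_mul_of_nonneg_left j2 (h0 x)
    calc _ = ρ x * (p * (2 / (N:ℝ)) * (q1 a w (ell c x) ^ 2 + q2 a w (ell c x) ^ 2)) := by ring
      _ ≤ _ := j3
      _ = _ := by ring
  have hE : ∫ x, ρ x * ∑ n, h' n (ell c x) ^ 2 ≤ p * (w ^ 2)⁻¹ := by
    have l1 := integral_mono_of_nonneg (μ := volume)
      (Filter.Eventually.of_forall fun x => mul_nonneg (h0 x)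
        (Finset.sum_nonneg fun n _ => sq_nonneg (h' n (ell c x))))
      (hAi.const_mul (p * (2 / N) * (w ^ 2)⁻¹)) (Filter.Eventually.of_forall hq)
    rw [integral_const_mul, hA'] at l1
    refine l1.trans (le_of_eq ?_)
    field_simp
  have hE0 : 0 ≤ ∫ x, ρ x * ∑ n, h' n (ell c x) ^ 2 :=
    integral_nonneg fun x => mul_nonneg (h0 x) (Finset.sum_nonneg fun n _ => sq_nonneg _)
  calc (∑ i, c i ^ 2) * ∫ x, ρ x * ∑ n, h' n (ell c x) ^ 2
      ≤ 14 * ∫ x, ρ x * ∑ n, h' n (ell c x) ^ 2 := mul_le_mul_of_nonneg_right hc hE0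
    _ ≤ 14 * (p * (w ^ 2)⁻¹) := mul_le_mul_of_nonneg_left hE (by norm_num)
    _ ≤ _ := mul_le_mul_of_nonneg_left (mul_le_mul_of_nonneg_left hW hp0.le) (by norm_num)

lemma const_bound {p s : ℕ} (hp : 1 ≤ p) {I : ℝ} (hI : 0 ≤ I) :
    14 * (p * (72000000 * ((2 / (((p + s) + p : ℕ) : ℝ)) ^ (5 / 3 : ℝ) * I))) ≤
      ((p + s : ℕ) : ℝ) ^ (-(2 / 3) : ℝ) * (2100000000 * I) := by
  have hp0 : (0:ℝ) < p := by exact_mod_cast hp
  set q : ℝ := ((p + s : ℕ) : ℝ) with hq
  set N : ℝ := (((p + s) + p : ℕ) : ℝ) with hN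
  have hq0 : 0 < q := by rw [hq]; push_cast; positivity
  have hN0 : 0 < N := by rw [hN]; push_cast; positivity
  have hqN : q ≤ N := by rw [hq, hN]; push_cast; linarith
  have hpN : p * (2 / N) ≤ 1 := by
    rw [mul_div_assoc', div_le_one hN0, hN]
    push_cast
    have : (0:ℝ) ≤ s := Nat.cast_nonneg s
    linarith
  have h20 : 0 < 2 / N := by positivity
  have e1 : (2 / N) ^ (5 / 3 : ℝ) = 2 / N * (2 / N) ^ (2 / 3 : ℝ) := by
    have : (5 / 3 : ℝ) = 1 + 2 / 3 := by norm_num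
    rw [this, Real.rpow_add h20, Real.rpow_one]
  have e2 : (2 / N) ^ (2 / 3 : ℝ) ≤ 2 * q ^ (-(2 / 3) : ℝ) := by
    have i1 : (2 / N) ^ (2 / 3 : ℝ) ≤ (2 / q) ^ (2 / 3 : ℝ) :=
      Real.rpow_le_rpow h20.le (div_le_div_of_nonneg_left (by norm_num) hq0 hqN) (by norm_num)
    rw [Real.div_rpow (by norm_num) hq0.le, div_eq_mul_inv ((2:ℝ) ^ (2 / 3 : ℝ)),
      ← Real.rpow_neg hq0.le] at i1
    have i2 : (2:ℝ) ^ (2 / 3 : ℝ) ≤ 2 := by
      calc (2:ℝ) ^ (2 / 3 : ℝ) ≤ (2:ℝ) ^ (1:ℝ) :=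
            Real.rpow_le_rpow_of_exponent_le (by norm_num) (by norm_num)
        _ = 2 := Real.rpow_one 2
    exact i1.trans (mul_le_mul_of_nonneg_right i2 (by positivity))
  have hr : 0 ≤ q ^ (-(2 / 3) : ℝ) := by positivity
  have e3 : p * ((2 / N) ^ (5 / 3 : ℝ)) ≤ 2 * q ^ (-(2 / 3) : ℝ) := by
    rw [e1, ← mul_assoc]
    calc p * (2 / N) * (2 / N) ^ (2 / 3 : ℝ) ≤ 1 * (2 / N) ^ (2 / 3 : ℝ) :=
          mul_le_mul_of_nonneg_right hpN (by positivity)
      _ = (2 / N) ^ (2 / 3 : ℝ) := one_mul _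
      _ ≤ _ := e2
  have e4 := mul_le_mul_of_nonneg_right e3 hI
  have e5 : 0 ≤ q ^ (-(2 / 3) : ℝ) * I := mul_nonneg hr hI
  nlinarith

/-- The classical constant `K^c = (3/5) (6π²)^{2/3}`. -/
noncomputable def Kc : ℝ := 3 / 5 * (6 * Real.pi ^ 2) ^ (2 / 3 : ℝ)

lemma Kc_ge : 9 ≤ Kc := by
  have h1 : (15:ℝ) ≤ (6 * Real.pi ^ 2) ^ (2 / 3 : ℝ) := by
    have h0 : (0:ℝ) ≤ 6 * Real.pi ^ 2 := by positivity
    have h2 : ((6 * Real.pi ^ 2) ^ (2 / 3 : ℝ)) ^ 3 = (6 * Real.pi ^ 2) ^ 2 := by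
      rw [← Real.rpow_natCast, ← Real.rpow_mul h0, ← Real.rpow_natCast]
      norm_num
    have h3 : (3.14:ℝ) < Real.pi := Real.pi_gt_d2
    have h4 : (9.8596:ℝ) ≤ Real.pi ^ 2 := by nlinarith
    have h5 : (15:ℝ) ^ 3 ≤ ((6 * Real.pi ^ 2) ^ (2 / 3 : ℝ)) ^ 3 := by
      rw [h2]; nlinarith
    exact le_of_pow_le_pow_left₀ (by norm_num) (by positivity) h5
  rw [Kc]
  linarith

lemma const_bound2 {p s : ℕ} (hp : 1 ≤ p) (h : (p:ℝ) ≤ 2 / 10 ^ 9 * ((p + s : ℕ) : ℝ)) {I : ℝ}
    (hI : 0 ≤ I) :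
    14 * (p * (72000000 * ((2 / (((p + s) + p : ℕ) : ℝ)) ^ (5 / 3 : ℝ) * I))) ≤
      ((p + s : ℕ) : ℝ) ^ (-(2 / 3) : ℝ) * (Kc * I) := by
  have hp0 : (0:ℝ) < p := by exact_mod_cast hp
  have hqN : ((p + s : ℕ) : ℝ) ≤ (((p + s) + p : ℕ) : ℝ) := by push_cast; linarith
  have hq0 : (0:ℝ) < ((p + s : ℕ) : ℝ) := by push_cast; positivity
  have hN0 : (0:ℝ) < (((p + s) + p : ℕ) : ℝ) := by push_cast; positivity
  set q : ℝ := ((p + s : ℕ) : ℝ) with hq
  set N : ℝ := (((p + s) + p : ℕ) : ℝ) with hN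
  have h20 : 0 < 2 / N := by positivity
  have e2 : (2 / N) ^ (5 / 3 : ℝ) ≤ 4 * q ^ (-(5 / 3) : ℝ) := by
    have i1 : (2 / N) ^ (5 / 3 : ℝ) ≤ (2 / q) ^ (5 / 3 : ℝ) :=
      Real.rpow_le_rpow h20.le (div_le_div_of_nonneg_left (by norm_num) hq0 hqN) (by norm_num)
    rw [Real.div_rpow (by norm_num) hq0.le, div_eq_mul_inv ((2:ℝ) ^ (5 / 3 : ℝ)),
      ← Real.rpow_neg hq0.le] at i1
    have i2 : (2:ℝ) ^ (5 / 3 : ℝ) ≤ 4 := by
      calc (2:ℝ) ^ (5 / 3 : ℝ) ≤ (2:ℝ) ^ (2:ℝ) :=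
            Real.rpow_le_rpow_of_exponent_le (by norm_num) (by norm_num)
        _ = 4 := by norm_num
    exact i1.trans (mul_le_mul_of_nonneg_right i2 (by positivity))
  have e3 : q * q ^ (-(5 / 3) : ℝ) = q ^ (-(2 / 3) : ℝ) := by
    have : (-(2 / 3) : ℝ) = 1 + (-(5 / 3)) := by norm_num
    rw [this, Real.rpow_add hq0, Real.rpow_one]
  have hr : 0 ≤ q ^ (-(2 / 3) : ℝ) := by positivity
  have hr5 : 0 ≤ q ^ (-(5 / 3) : ℝ) := by positivity
  have e4 : p * (2 / N) ^ (5 / 3 : ℝ) ≤ 8 / 10 ^ 9 * q ^ (-(2 / 3) : ℝ) := by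
    calc p * (2 / N) ^ (5 / 3 : ℝ) ≤ p * (4 * q ^ (-(5 / 3) : ℝ)) :=
          mul_le_mul_of_nonneg_left e2 hp0.le
      _ ≤ (2 / 10 ^ 9 * q) * (4 * q ^ (-(5 / 3) : ℝ)) :=
          mul_le_mul_of_nonneg_right h (by positivity)
      _ = 8 / 10 ^ 9 * (q * q ^ (-(5 / 3) : ℝ)) := by ring
      _ = _ := by rw [e3]
  have e5 := mul_le_mul_of_nonneg_right e4 hI
  have e6 : 0 ≤ q ^ (-(2 / 3) : ℝ) * I := mul_nonneg hr hI
  have e7 := mul_le_mul_of_nonneg_right Kc_ge e6
  nlinarith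

/-- **The March-Young bound with other constants, for `N ≤ 2q`.** For `N ≤ q` every density has an
admissible family with kinetic energy `∫ |∇√ρ|²`. For `N ≤ 2q` every density with `√ρ ∈ H¹(ℝ³)`
has an admissible family with
`T ≤ q^{-2/3} K ∫ ρ^{5/3} + ∫ |∇√ρ|²`, `K = 2.1 * 10⁹`. For `N ≤ (1 + 2 * 10⁻⁹) q` this holds
with the classical constant `K = K^c`, which is the March-Young bound itself. -/
theorem result :
    (∀ (q N : ℕ), 1 ≤ N → N ≤ q → ∀ (ρ : E3 → ℝ) (G : Fin 3 → E3 → ℂ), IsDensity ρ N G →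
      ∃ (φ : Fin N → Fin q → E3 → ℂ) (g : Fin N → Fin q → Fin 3 → E3 → ℂ),
        IsAdmissible ρ φ g ∧ kinetic g = ∑ i, ∫ x, ‖G i x‖ ^ 2) ∧
    (∀ (q N : ℕ), 1 ≤ N → N ≤ 2 * q → ∀ (ρ : E3 → ℝ) (G : Fin 3 → E3 → ℂ), IsDensity ρ N G →
      Integrable (fun x => ρ x ^ (5 / 3 : ℝ)) →
      ∃ (φ : Fin N → Fin q → E3 → ℂ) (g : Fin N → Fin q → Fin 3 → E3 → ℂ),
        IsAdmissible ρ φ g ∧
        kinetic g ≤ (q : ℝ) ^ (-(2 / 3) : ℝ) * (2100000000 * ∫ x, ρ x ^ (5 / 3 : ℝ)) +
          ∑ i, ∫ x, ‖G i x‖ ^ 2) ∧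
    (∀ (q N : ℕ), 1 ≤ N → (N : ℝ) ≤ (1 + 2 / 10 ^ 9) * q →
      ∀ (ρ : E3 → ℝ) (G : Fin 3 → E3 → ℂ), IsDensity ρ N G →
      Integrable (fun x => ρ x ^ (5 / 3 : ℝ)) →
      ∃ (φ : Fin N → Fin q → E3 → ℂ) (g : Fin N → Fin q → Fin 3 → E3 → ℂ),
        IsAdmissible ρ φ g ∧
        kinetic g ≤ (q : ℝ) ^ (-(2 / 3) : ℝ) * (Kc * ∫ x, ρ x ^ (5 / 3 : ℝ)) +
          ∑ i, ∫ x, ‖G i x‖ ^ 2) := by
  refine ⟨fun q N hN hNq ρ G h => small hN hNq h.nonneg h.integrable h.integral h.sobolev,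
    fun q N hN hN2 ρ G h hI => ?_, fun q N hN hN2 ρ G h hI => ?_⟩
  rotate_left
  · have hI0 : 0 ≤ ∫ x, ρ x ^ (5 / 3 : ℝ) :=
      integral_nonneg fun x => Real.rpow_nonneg (h.nonneg x) _
    rcases Nat.lt_or_ge q N with hq | hq
    · obtain ⟨p, rfl⟩ : ∃ p, N = q + p := ⟨N - q, by omega⟩
      have hp : 1 ≤ p := by omega
      have hpq : (p:ℝ) ≤ 2 / 10 ^ 9 * q := by
        push_cast at hN2
        linarith
      have hpq2 : p ≤ q := by
        have h1 : (p:ℝ) ≤ q := by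
          have : (0:ℝ) ≤ q := Nat.cast_nonneg q
          linarith
        exact_mod_cast h1
      obtain ⟨s, rfl⟩ : ∃ s, q = p + s := ⟨q - p, by omega⟩
      obtain ⟨φ, g, h1, h2⟩ := large hp h.nonneg h.integrable h.integral hI h.sobolev
      refine ⟨φ, g, h1, h2.trans ?_⟩
      have h3 := const_bound2 (s := s) hp hpq hI0
      linarith
    · obtain ⟨φ, g, h1, h2⟩ := small hN hq h.nonneg h.integrable h.integral h.sobolev
      refine ⟨φ, g, h1, ?_⟩
      rw [h2]
      have hK : 0 ≤ Kc := by linarith [Kc_ge]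
      have : 0 ≤ (q : ℝ) ^ (-(2 / 3) : ℝ) * (Kc * ∫ x, ρ x ^ (5 / 3 : ℝ)) := by positivity
      linarith
  have hI0 : 0 ≤ ∫ x, ρ x ^ (5 / 3 : ℝ) :=
    integral_nonneg fun x => Real.rpow_nonneg (h.nonneg x) _
  rcases Nat.lt_or_ge q N with hq | hq
  · obtain ⟨p, rfl⟩ : ∃ p, N = q + p := ⟨N - q, by omega⟩
    obtain ⟨s, rfl⟩ : ∃ s, q = p + s := ⟨q - p, by omega⟩
    have hp : 1 ≤ p := by omega
    obtain ⟨φ, g, h1, h2⟩ := large hp h.nonneg h.integrable h.integral hI h.sobolev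
    refine ⟨φ, g, h1, h2.trans ?_⟩
    have h3 := const_bound (s := s) hp hI0
    linarith
  · obtain ⟨φ, g, h1, h2⟩ := small hN hq h.nonneg h.integrable h.integral h.sobolev
    refine ⟨φ, g, h1, ?_⟩
    rw [h2]
    have : 0 ≤ (q : ℝ) ^ (-(2 / 3) : ℝ) * (2100000000 * ∫ x, ρ x ^ (5 / 3 : ℝ)) := by positivity
    linarith

end Pool.Agent.Results.MP_2c73ad_mp.MarchYoungTwo
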